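import Mathlib
import Pool.Agent.Helper635.LLL

set_option autoImplicit false

/-! Polychromatic labellings of hypergraphs with large edges and polynomially bounded degrees,
a height function for digraphs, and a level by level choice principle. -/

namespace Pool.Agent.H104Z.OC

open Finset Filter Topology
open Pool.Agent.Helper635.LLL

theorem cnt_avoid {V Q : Type} [Fintype V] [Fintype Q] [Nonempty Q] (S : Finset V) (z : Q) :
    (cnt (fun ω : V → Q => ∀ w ∈ S, ω w ≠ z) : ℝ) =
      (((Fintype.card Q : ℝ) - 1) / Fintype.card Q) ^ S.card * Nat.card (V → Q) := by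
  classical
  have hq : (0 : ℝ) < Fintype.card Q := by exact_mod_cast Fintype.card_pos
  have h1 : ev (fun ω : V → Q => ∀ w ∈ S, ω w ≠ z) =
      Fintype.piFinset (fun w : V => if w ∈ S then (univ : Finset Q).erase z else univ) := by
    ext ω
    rw [mem_ev, Fintype.mem_piFinset]
    constructor
    · intro h w
      by_cases hw : w ∈ S
      · simp [hw, h w hw]
      · simp [hw]
    · intro h w hw
      have := h w
      simpa [hw] using this
  have h2 : ∀ w : V, (((if w ∈ S then (univ : Finset Q).erase z else univ).card : ℕ) : ℝ) =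
      (if w ∈ S then ((Fintype.card Q : ℝ) - 1) / Fintype.card Q else 1) * Fintype.card Q := by
    intro w
    by_cases hw : w ∈ S
    · simp only [hw, if_true]
      rw [card_erase_of_mem (mem_univ z), card_univ, Nat.cast_sub Fintype.card_pos]
      field_simp
      simp
    · simp [hw]
  rw [cnt, h1, Fintype.card_piFinset, Nat.cast_prod]
  simp only [h2]
  rw [prod_mul_distrib, prod_ite, prod_const_one, mul_one, prod_const, prod_const]
  have h3 : (univ.filter (fun w => w ∈ S)) = S := by ext w; simp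
  rw [h3, Nat.card_eq_fintype_card, Fintype.card_pi]
  simp

theorem exists_size (q C e : ℕ) (hq : 0 < q) :
    ∃ s : ℕ, 0 < s ∧ 4 * (((q : ℝ) - 1) / q) ^ s * ((s * (C * s) ^ e * q + 1 : ℕ) : ℝ) ≤ 1 := by
  have hq' : (0 : ℝ) < q := by exact_mod_cast hq
  have hq1 : (1 : ℝ) ≤ q := by exact_mod_cast hq
  set ρ : ℝ := ((q : ℝ) - 1) / q with hρ
  have hρ0 : 0 ≤ ρ := div_nonneg (by linarith) hq'.le
  have hρ1 : ρ < 1 := by rw [hρ, div_lt_one hq']; linarith
  have habs : |ρ| < 1 := by rw [abs_of_nonneg hρ0]; exact hρ1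
  have h1 : Tendsto (fun n : ℕ => (n : ℝ) ^ (e + 1) * ρ ^ n) atTop (𝓝 0) :=
    tendsto_pow_const_mul_const_pow_of_abs_lt_one (e + 1) habs
  have h2 : Tendsto (fun n : ℕ => ρ ^ n) atTop (𝓝 0) :=
    tendsto_pow_atTop_nhds_zero_of_lt_one hρ0 hρ1
  have h3 : Tendsto (fun n : ℕ => 4 * ((C : ℝ) ^ e * q) * ((n : ℝ) ^ (e + 1) * ρ ^ n) + 4 * ρ ^ n)
      atTop (𝓝 (4 * ((C : ℝ) ^ e * q) * 0 + 4 * 0)) :=
    (h1.const_mul _).add (h2.const_mul _)
  simp only [mul_zero, add_zero] at h3
  have h4 := (h3.eventually (gt_mem_nhds (show (0 : ℝ) < 1 by norm_num))).and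
    (eventually_gt_atTop 0)
  obtain ⟨s, hs1, hs2⟩ := h4.exists
  refine ⟨s, hs2, ?_⟩
  refine le_trans (le_of_eq ?_) hs1.le
  push_cast
  ring

theorem polychrom (Q : Type) [Fintype Q] [Nonempty Q] (C e : ℕ) :
    ∃ s : ℕ, 0 < s ∧ ∀ (V : Type) [Fintype V] [DecidableEq V] (E : V → Finset V) (J : Finset V),
      (∀ i ∈ J, s ≤ (E i).card) → (∀ w, (J.filter (fun i => w ∈ E i)).card ≤ (C * s) ^ e) →
      ∃ f : V → Q, ∀ i ∈ J, ∀ z, ∃ w ∈ E i, f w = z := by
  classical
  obtain ⟨s, hs, hsz⟩ := exists_size (Fintype.card Q) C e Fintype.card_pos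
  refine ⟨s, hs, ?_⟩
  intro V _ _ E J hE hdeg
  have hq : (0 : ℝ) < Fintype.card Q := by exact_mod_cast Fintype.card_pos
  have hq1 : (1 : ℝ) ≤ Fintype.card Q := by exact_mod_cast Fintype.card_pos
  have hsub : ∀ i, ∃ S : Finset V, S ⊆ E i ∧ (i ∈ J → S.card = s) := by
    intro i
    by_cases hi : i ∈ J
    · obtain ⟨S, h1, h2⟩ := exists_subset_card_eq (hE i hi)
      exact ⟨S, h1, fun _ => h2⟩
    · exact ⟨∅, empty_subset _, fun h => absurd h hi⟩
  choose S hS1 hS2 using hsub
  obtain ⟨ω, hω⟩ := lll (T := V) (C := Q) (J ×ˢ (univ : Finset Q))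
    (fun p ω => ∀ w ∈ S p.1, ω w ≠ p.2) (fun p => S p.1)
    (by
      intro p _ ω ω' h1 h2 w hw
      rw [← h1 w hw]
      exact h2 w hw)
    ((((Fintype.card Q : ℝ) - 1) / Fintype.card Q) ^ s)
    (s * (C * s) ^ e * Fintype.card Q + 1)
    (pow_nonneg (div_nonneg (by linarith) hq.le) _)
    (by
      intro p hp
      have h1 := cnt_avoid (S p.1) p.2
      rw [hS2 p.1 (mem_product.1 hp).1] at h1
      rw [@Fintype.card_eq_nat_card (V → Q)]
      exact h1.le)
    (by
      intro p hp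
      refine le_trans ?_ (Nat.le_succ _)
      have h1 : (J ×ˢ (univ : Finset Q)).filter (fun j => ¬ Disjoint (S p.1) (S j.1)) ⊆
          ((S p.1).biUnion (fun w => J.filter (fun i => w ∈ E i))) ×ˢ (univ : Finset Q) := by
        intro j hj
        rw [mem_filter, mem_product, not_disjoint_iff] at hj
        obtain ⟨⟨hj1, -⟩, w, hw1, hw2⟩ := hj
        rw [mem_product, mem_biUnion]
        exact ⟨⟨w, hw1, mem_filter.2 ⟨hj1, hS1 _ hw2⟩⟩, mem_univ _⟩
      have h2 := card_le_card h1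
      rw [card_product, card_univ] at h2
      have h3 : ((S p.1).biUnion (fun w => J.filter (fun i => w ∈ E i))).card ≤ s * (C * s) ^ e := by
        refine le_trans card_biUnion_le ?_
        refine le_trans (sum_le_card_nsmul _ _ _ (fun w _ => hdeg w)) ?_
        rw [hS2 p.1 (mem_product.1 hp).1, smul_eq_mul]
      refine le_trans ?_ (Nat.mul_le_mul_right _ h3)
      refine le_trans (card_le_card ?_) h2
      intro j hj
      simp only [mem_filter] at hj ⊢
      exact hj)
    hsz (Nat.le_add_left _ _) (by rw [Fintype.card_eq_nat_card]; exact Nat.card_pos)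
  refine ⟨ω, fun i hi z => ?_⟩
  have h1 := hω (i, z) (mem_product.2 ⟨hi, mem_univ _⟩)
  push Not at h1
  obtain ⟨w, hw1, hw2⟩ := h1
  exact ⟨w, hS1 i hw1, hw2⟩

theorem exists_height {V : Type} [Fintype V] [DecidableEq V] (O : V → Finset V) (d : ℕ)
    (hd : 0 < d) (hO : ∀ v, (O v).card ≤ d) :
    ∃ h : V → ℕ, ∀ v, ∑ u ∈ univ.filter (fun u => v ∈ O u), (2 * d) ^ h u ≤ (2 * d) ^ (h v + 2) := by
  classical
  let Inv : (V → ℕ) → Prop := fun h =>
    ∀ v, (2 * d) ^ (h v + 1) ≤ 2 * d + ∑ u ∈ univ.filter (fun u => v ∈ O u), (2 * d) ^ h u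
  let Φ : (V → ℕ) → ℕ := fun h => ∑ v, (2 * d) ^ h v
  have hbd : ∀ h, Inv h → Φ h ≤ 2 * Fintype.card V := by
    intro h hh
    have h1 : ∑ v, (2 * d) ^ (h v + 1) ≤
        ∑ v, (2 * d + ∑ u ∈ univ.filter (fun u => v ∈ O u), (2 * d) ^ h u) :=
      sum_le_sum fun v _ => hh v
    have h2 : ∑ v : V, ∑ u ∈ univ.filter (fun u => v ∈ O u), (2 * d) ^ h u ≤ d * Φ h := by
      have h3 : ∑ v : V, ∑ u ∈ univ.filter (fun u => v ∈ O u), (2 * d) ^ h u =
          ∑ u : V, ∑ v ∈ O u, (2 * d) ^ h u := by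
        apply sum_comm'
        intro v u
        simp
      rw [h3, mul_sum]
      refine sum_le_sum fun u _ => ?_
      rw [sum_const, smul_eq_mul]
      exact Nat.mul_le_mul_right _ (hO u)
    have h4 : ∑ v, (2 * d) ^ (h v + 1) = 2 * d * Φ h := by
      rw [mul_sum]
      refine sum_congr rfl fun v _ => ?_
      ring
    rw [sum_add_distrib, sum_const, card_univ, smul_eq_mul, h4] at h1
    have h5 : d * Φ h ≤ d * (2 * Fintype.card V) := by nlinarith
    exact Nat.le_of_mul_le_mul_left h5 hd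
  have hne : ({n | ∃ h, Inv h ∧ Φ h = n} : Set ℕ).Nonempty :=
    ⟨_, fun _ => 0, fun v => by simp, rfl⟩
  have hbdd : BddAbove ({n | ∃ h, Inv h ∧ Φ h = n} : Set ℕ) :=
    ⟨2 * Fintype.card V, by rintro n ⟨h, hh, rfl⟩; exact hbd h hh⟩
  obtain ⟨h, hh, hmax⟩ := Nat.sSup_mem hne hbdd
  refine ⟨h, fun v => ?_⟩
  by_contra hlt
  push Not at hlt
  have hM : 1 ≤ 2 * d := by omega
  have hle : ∀ u, (2 * d) ^ h u ≤ (2 * d) ^ (Function.update h v (h v + 1) u) := by
    intro u
    apply Nat.pow_le_pow_right hM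
    by_cases hu : u = v
    · subst hu; simp
    · simp [Function.update_of_ne hu]
  have hinv : Inv (Function.update h v (h v + 1)) := by
    intro w
    have h1 : ∑ u ∈ univ.filter (fun u => w ∈ O u), (2 * d) ^ h u ≤
        ∑ u ∈ univ.filter (fun u => w ∈ O u), (2 * d) ^ (Function.update h v (h v + 1) u) :=
      sum_le_sum fun u _ => hle u
    by_cases hw : w = v
    · subst hw
      rw [Function.update_self]
      have : h w + 1 + 1 = h w + 2 := rfl
      rw [this]
      omega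
    · rw [Function.update_of_ne hw]
      have := hh w
      omega
  have hlt2 : Φ h < Φ (Function.update h v (h v + 1)) := by
    apply sum_lt_sum (fun u _ => hle u)
    refine ⟨v, mem_univ _, ?_⟩
    rw [Function.update_self]
    exact Nat.pow_lt_pow_right (by omega) (Nat.lt_succ_self _)
  have h6 : Φ (Function.update h v (h v + 1)) ≤ sSup ({n | ∃ h, Inv h ∧ Φ h = n} : Set ℕ) :=
    le_csSup hbdd ⟨_, hinv, rfl⟩
  omega

theorem seq_choice {V C : Type} [Fintype V] [Nonempty C] (h : V → ℕ) (Good : ℕ → (V → C) → Prop)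
    (hdep : ∀ (j : ℕ) (c c' : V → C), (∀ w, j ≤ h w → c w = c' w) → Good j c → Good j c')
    (hstep : ∀ (j : ℕ) (c : V → C), ∃ c' : V → C, (∀ w, j < h w → c' w = c w) ∧ Good j c') :
    ∃ c, ∀ j, Good j c := by
  classical
  obtain ⟨H, hH⟩ : ∃ H, ∀ w, h w < H :=
    ⟨univ.sup h + 1, fun w => Nat.lt_succ_of_le (le_sup (f := h) (mem_univ w))⟩
  have key : ∀ n, ∃ c, ∀ j, H ≤ j + n → Good j c := by
    intro n
    induction n with
    | zero =>
      refine ⟨fun _ => Classical.arbitrary C, fun j hj => ?_⟩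
      obtain ⟨c', -, hc'⟩ := hstep j (fun _ => Classical.arbitrary C)
      exact hdep j c' _ (fun w hw => by have := hH w; omega) hc'
    | succ n ih =>
      obtain ⟨c, hc⟩ := ih
      obtain ⟨c', hc1, hc2⟩ := hstep (H - (n + 1)) c
      refine ⟨c', fun j hj => ?_⟩
      by_cases hj0 : j = H - (n + 1)
      · rw [hj0]; exact hc2
      · exact hdep j c c' (fun w hw => (hc1 w (by omega)).symm) (hc j (by omega))
  obtain ⟨c, hc⟩ := key H
  exact ⟨c, fun j => hc j (by omega)⟩

end Pool.Agent.H104Z.OC
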