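import Mathlib

set_option autoImplicit false

/-! Rank classes in a digraph with a height function, and the lists in an odd cycle. -/

namespace Pool.Agent.H104Z.OC

open Finset

/-- vertices of the cycle `ZMod g` reachable from `y` by a walk with exactly `t` steps -/
def L {g : ℕ} (t : ℕ) (y : ZMod g) : Finset (ZMod g) :=
  (range (t + 1)).image (fun i : ℕ => y - (t : ZMod g) + 2 * (i : ZMod g))

theorem mem_L {g : ℕ} {t : ℕ} {y x : ZMod g} :
    x ∈ L t y ↔ ∃ i : ℕ, i ≤ t ∧ y - (t : ZMod g) + 2 * (i : ZMod g) = x := by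
  simp only [L, mem_image, mem_range, Nat.lt_succ_iff]

theorem L_nonempty {g : ℕ} (t : ℕ) (y : ZMod g) : (L t y).Nonempty :=
  ⟨_, mem_L.2 ⟨0, Nat.zero_le _, rfl⟩⟩

theorem L_zero {g : ℕ} {y x : ZMod g} (h : x ∈ L 0 y) : x = y := by
  obtain ⟨i, hi, rfl⟩ := mem_L.1 h
  have : i = 0 := by omega
  subst this
  simp

theorem L_step {g : ℕ} {t : ℕ} {y x : ZMod g} (h : x ∈ L (t + 1) y) :
    ∃ z ∈ L t y, z = x + 1 ∨ z = x - 1 := by
  obtain ⟨i, hi, rfl⟩ := mem_L.1 h
  by_cases h1 : i ≤ t
  · refine ⟨_, mem_L.2 ⟨i, h1, rfl⟩, Or.inl ?_⟩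
    push_cast
    ring
  · have : i = t + 1 := by omega
    subst this
    refine ⟨_, mem_L.2 ⟨t, le_rfl, rfl⟩, Or.inr ?_⟩
    push_cast
    ring

theorem L_all {m : ℕ} {t : ℕ} (ht : 2 * m ≤ t) (y x : ZMod (2 * m + 1)) : x ∈ L t y := by
  rw [mem_L]
  refine ⟨((x - y + (t : ZMod (2 * m + 1))) * ((m : ZMod (2 * m + 1)) + 1)).val, ?_, ?_⟩
  · have := ZMod.val_lt ((x - y + (t : ZMod (2 * m + 1))) * ((m : ZMod (2 * m + 1)) + 1))
    omega
  · rw [ZMod.natCast_zmod_val]
    have h0 : ((2 * m + 1 : ℕ) : ZMod (2 * m + 1)) = 0 := ZMod.natCast_self _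
    push_cast at h0
    linear_combination (x - y + (t : ZMod (2 * m + 1))) * h0

theorem L_eq_univ {m : ℕ} {t : ℕ} (ht : 2 * m ≤ t) (y : ZMod (2 * m + 1)) : L t y = univ :=
  eq_univ_of_forall (L_all ht y)

/-- pigeonhole: a popular value -/
theorem exists_popular {V B : Type} [DecidableEq B] (A : Finset V) (f : V → B) (R : Finset B)
    (hR : ∀ v ∈ A, f v ∈ R) (hne : R.Nonempty) (s : ℕ) (hs : R.card * s ≤ A.card) :
    ∃ z ∈ R, s ≤ (A.filter (fun v => f v = z)).card :=
  exists_le_card_fiber_of_mul_le_card_of_maps_to hR hne hs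

section rank

variable {V : Type} [DecidableEq V] (O : V → Finset V) (h : V → ℕ) (T a : ℕ)

/-- out-neighbours much higher than `v` -/
def far (v : V) : Finset V := (O v).filter (fun w => h v + T < h w)

/-- the other out-neighbours -/
def loc (v : V) : Finset V := (O v).filter (fun w => ¬ h v + T < h w)

open Classical in
/-- the rank classes -/
def S : ℕ → V → Prop
  | 0 => fun v => a ≤ (far O h T v).card
  | t + 1 => fun v => S t v ∨ (t + 1) * a ≤ ((loc O h T v).filter (fun w => S t w)).card

omit [DecidableEq V] in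
theorem S_mono {t t' : ℕ} (htt : t ≤ t') {v : V} (hv : S O h T a t v) : S O h T a t' v := by
  induction htt with
  | refl => exact hv
  | step _ ih => exact Or.inl ih

theorem exists_rank (t0 : ℕ) (hO : ∀ v, (t0 + 2) * a ≤ (O v).card) :
    ∃ (r : V → ℕ) (A : V → Finset V), ∀ v, r v ≤ t0 + 1 ∧ (r v = 0 → a ≤ (far O h T v).card) ∧
      (1 ≤ r v → A v ⊆ loc O h T v ∧ a ≤ (A v).card) ∧
      (1 ≤ r v → r v ≤ t0 → ∀ w ∈ A v, r w + 1 = r v) ∧
      (r v = t0 + 1 → ∀ w ∈ A v, t0 ≤ r w) := by
  classical
  have hex : ∀ v, ∃ t, S O h T a t v ∨ t = t0 + 1 := fun v => ⟨t0 + 1, Or.inr rfl⟩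
  let r : V → ℕ := fun v => Nat.find (hex v)
  have hr1 : ∀ v, r v ≤ t0 + 1 := fun v => Nat.find_min' (hex v) (Or.inr rfl)
  have hr2 : ∀ v t, t ≤ t0 → (r v ≤ t ↔ S O h T a t v) := by
    intro v t ht
    constructor
    · intro h1
      rcases Nat.find_spec (hex v) with h2 | h2
      · exact S_mono O h T a h1 h2
      · exfalso
        have : r v = t0 + 1 := h2
        omega
    · intro h1
      exact Nat.find_min' (hex v) (Or.inl h1)
  have hsplit : ∀ v, (far O h T v).card + (loc O h T v).card = (O v).card := fun v =>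
    card_filter_add_card_filter_not _
  -- number of local out-neighbours of small rank
  have hsmall : ∀ v t, t ≤ t0 → t < r v →
      ((loc O h T v).filter (fun w => r w < t)).card ≤ t * a := by
    intro v t ht htv
    cases t with
    | zero => simp
    | succ t =>
      have h1 : ¬ S O h T a (t + 1) v := fun h2 => by
        have := (hr2 v (t + 1) ht).2 h2
        omega
      have h2 : ¬ (t + 1) * a ≤ ((loc O h T v).filter (fun w => S O h T a t w)).card :=
        fun h3 => h1 (Or.inr (by convert h3))
      have h3 : (loc O h T v).filter (fun w => r w < t + 1) =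
          (loc O h T v).filter (fun w => S O h T a t w) := by
        apply filter_congr
        intro w _
        rw [Nat.lt_succ_iff]
        exact hr2 w t (by omega)
      rw [h3]
      omega
  refine ⟨r, fun v => if r v ≤ t0 then (loc O h T v).filter (fun w => r w + 1 = r v)
    else (loc O h T v).filter (fun w => t0 ≤ r w), fun v => ⟨hr1 v, ?_, ?_, ?_, ?_⟩⟩
  · intro h0
    exact (hr2 v 0 (Nat.zero_le _)).1 h0.le
  · intro h1
    by_cases h2 : r v ≤ t0
    · simp only [h2, if_true]
      refine ⟨filter_subset _ _, ?_⟩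
      obtain ⟨t, ht⟩ : ∃ t, r v = t + 1 := ⟨r v - 1, by omega⟩
      have h3 : S O h T a (t + 1) v := (hr2 v (t + 1) (by omega)).1 ht.le
      have h4 : ¬ S O h T a t v := fun h5 => by
        have := (hr2 v t (by omega)).2 h5
        omega
      have h5 : (t + 1) * a ≤ ((loc O h T v).filter (fun w => S O h T a t w)).card := by
        rcases h3 with h3 | h3
        · exact absurd h3 h4
        · convert h3
      have h6 := hsmall v t (by omega) (by omega)
      have h7 : (loc O h T v).filter (fun w => S O h T a t w) ⊆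
          (loc O h T v).filter (fun w => r w < t) ∪
            (loc O h T v).filter (fun w => r w + 1 = r v) := by
        intro w hw
        rw [mem_filter] at hw
        have h8 := (hr2 w t (by omega)).2 hw.2
        rw [mem_union, mem_filter, mem_filter]
        by_cases h9 : r w < t
        · exact Or.inl ⟨hw.1, h9⟩
        · exact Or.inr ⟨hw.1, by omega⟩
      have h8 := (card_le_card h7).trans (card_union_le _ _)
      have h9 : (t + 1) * a = t * a + a := by ring
      omega
    · simp only [h2, if_false]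
      refine ⟨filter_subset _ _, ?_⟩
      have h3 : ¬ S O h T a 0 v := fun h5 => by
        have := (hr2 v 0 (by omega)).2 h5
        omega
      have h4 : ¬ a ≤ (far O h T v).card := h3
      have h6 := hsmall v t0 le_rfl (by omega)
      have h7 : ((loc O h T v).filter (fun w => r w < t0)).card +
          ((loc O h T v).filter (fun w => ¬ r w < t0)).card = (loc O h T v).card :=
        card_filter_add_card_filter_not _
      have h8 : (loc O h T v).filter (fun w => t0 ≤ r w) =
          (loc O h T v).filter (fun w => ¬ r w < t0) := by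
        apply filter_congr
        intro w _
        exact not_lt.symm
      have h9 := hsplit v
      have h10 := hO v
      have h11 : (t0 + 2) * a = t0 * a + a + a := by ring
      rw [h8]
      omega
  · intro _ h2 w hw
    simp only [h2, if_true] at hw
    exact (mem_filter.1 hw).2
  · intro h1 w hw
    have h2 : ¬ r v ≤ t0 := by omega
    simp only [h2, if_false] at hw
    exact (mem_filter.1 hw).2

end rank

end Pool.Agent.H104Z.OC
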