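import Mathlib
import Pool.Agent.H104Z.OC.Poly
import Pool.Agent.H104Z.OC.Struct

set_option autoImplicit false

/-! Every digraph of large minimum out-degree has a spanning subdigraph of large minimum
out-degree whose underlying graph maps homomorphically to a given odd cycle. -/

namespace Pool.Agent.H104Z.OC

open Finset

/-- a value taken at least `s` times on `A`, if there is one -/
noncomputable def pop {V : Type} {g : ℕ} (s : ℕ) (A : Finset V) (f : V → ZMod g) : ZMod g :=
  Classical.epsilon (fun z => s ≤ (A.filter (fun v => f v = z)).card)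

theorem pop_spec {V : Type} {g : ℕ} [NeZero g] (s : ℕ) (A : Finset V) (f : V → ZMod g)
    (hs : g * s ≤ A.card) : s ≤ (A.filter (fun v => f v = pop s A f)).card := by
  obtain ⟨z, -, hz⟩ := exists_popular A f univ (fun _ _ => mem_univ _) univ_nonempty s
    (by rw [card_univ, ZMod.card]; exact hs)
  exact Classical.epsilon_spec (p := fun z => s ≤ (A.filter (fun v => f v = z)).card) ⟨z, hz⟩

theorem pop_congr {V : Type} {g : ℕ} (s : ℕ) (A : Finset V) (f f' : V → ZMod g)
    (hf : ∀ v ∈ A, f v = f' v) : pop s A f = pop s A f' := by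
  unfold pop
  congr 1
  funext z
  rw [filter_congr (fun v hv => by rw [hf v hv])]

/-- the witness of a vertex, defined by recursion on the rank -/
noncomputable def wit {V : Type} {g : ℕ} (s : ℕ) (F P : V → Finset V) (c : V → ZMod g) :
    ℕ → V → ZMod g
  | 0 => fun v => pop s (F v) c
  | t + 1 => fun v => pop s (P v) (wit s F P c t)

theorem core {V : Type} [Fintype V] [DecidableEq V] (m t0 k s T Δ : ℕ) (ht0 : t0 + 1 = 2 * m)
    (hT : 2 * t0 ≤ T) (hks : k ≤ s)
    (h r l : V → ℕ) (F P : V → Finset V)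
    (hr : ∀ v, r v ≤ t0 + 1)
    (hF : ∀ v, ∀ w ∈ F v, h v + T < h w)
    (hF0 : ∀ v, r v = 0 → (2 * m + 1) * s ≤ (F v).card)
    (hP : ∀ v, 1 ≤ r v → (2 * m + 1) * s ≤ (P v).card)
    (hPl : ∀ v, 1 ≤ r v → ∀ w ∈ P v, h w = l v ∧ h v ≤ h w + 2)
    (hP1 : ∀ v, 1 ≤ r v → r v ≤ t0 → ∀ w ∈ P v, r w + 1 = r v)
    (hP2 : ∀ v, r v = t0 + 1 → ∀ w ∈ P v, t0 ≤ r w)
    (hdeg : ∀ w, (univ.filter (fun v => 1 ≤ r v ∧ w ∈ P v)).card ≤ Δ)
    (hpoly : ∀ (E : V → Finset V) (J : Finset V),
      (∀ i ∈ J, s ≤ (E i).card) → (∀ w, (J.filter (fun i => w ∈ E i)).card ≤ Δ) →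
      ∃ f : V → Fin (k + 1) × ZMod (2 * m + 1), ∀ i ∈ J, ∀ z, ∃ w ∈ E i, f w = z) :
    ∃ c : V → ZMod (2 * m + 1), ∀ v,
      k ≤ ((F v ∪ P v).filter (fun w => c w = c v + 1 ∨ c w = c v - 1)).card := by
  classical
  -- dependence of the witness on the colouring
  have hwit : ∀ (c c' : V → ZMod (2 * m + 1)) (t : ℕ), t ≤ t0 → ∀ v, r v = t →
      (∀ w, h v + T < h w + 2 * t → c w = c' w) → wit s F P c t v = wit s F P c' t v := by
    intro c c' t
    induction t with
    | zero =>
      intro _ v _ hc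
      exact pop_congr s _ _ _ (fun w hw => hc w (by have := hF v w hw; omega))
    | succ t ih =>
      intro ht v hv hc
      refine pop_congr s _ _ _ (fun w hw => ih (by omega) w ?_ ?_)
      · have := hP1 v (by omega) (by omega) w hw
        omega
      · intro u hu
        have := (hPl v (by omega) w hw).2
        exact hc u (by omega)
  let Lst : (V → ZMod (2 * m + 1)) → V → Finset (ZMod (2 * m + 1)) :=
    fun c v => L (r v + 1) (wit s F P c (r v) v)
  let Tgt : (V → ZMod (2 * m + 1)) → V → Finset (ZMod (2 * m + 1)) :=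
    fun c v => L (r v) (wit s F P c (r v) v)
  let N : (V → ZMod (2 * m + 1)) → V → Finset V :=
    fun c v => (P v).filter (fun w => Lst c w = Tgt c v)
  have hLst : ∀ (c c' : V → ZMod (2 * m + 1)) (v : V), (∀ w, h v < h w → c w = c' w) →
      Lst c v = Lst c' v := by
    intro c c' v hc
    by_cases hv : r v ≤ t0
    · show L _ _ = L _ _
      rw [hwit c c' (r v) hv v rfl (fun w hw => hc w (by omega))]
    · show L _ _ = L _ _
      rw [L_eq_univ (by omega), L_eq_univ (by omega)]
  have hTgt : ∀ (c c' : V → ZMod (2 * m + 1)) (v : V), 1 ≤ r v → (∀ w, l v < h w → c w = c' w) →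
      Tgt c v = Tgt c' v := by
    intro c c' v h1 hc
    by_cases hv : r v ≤ t0
    · obtain ⟨t, ht⟩ : ∃ t, r v = t + 1 := ⟨r v - 1, by omega⟩
      show L _ (wit s F P c (r v) v) = L _ (wit s F P c' (r v) v)
      congr 1
      rw [ht]
      refine pop_congr s _ _ _ (fun w hw => hwit c c' t (by omega) w ?_ ?_)
      · have := hP1 v h1 hv w hw
        omega
      · intro u hu
        have := (hPl v h1 w hw).1
        exact hc u (by omega)
    · show L _ _ = L _ _
      have := hr v
      rw [L_eq_univ (by omega), L_eq_univ (by omega)]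
  have hN : ∀ (c c' : V → ZMod (2 * m + 1)) (v : V), 1 ≤ r v → (∀ w, l v < h w → c w = c' w) →
      N c v = N c' v := by
    intro c c' v h1 hc
    apply filter_congr
    intro w hw
    rw [hTgt c c' v h1 hc, hLst c c' w (fun u hu => hc u (by have := (hPl v h1 w hw).1; omega))]
  have hNcard : ∀ (c : V → ZMod (2 * m + 1)) (v : V), 1 ≤ r v → s ≤ (N c v).card := by
    intro c v h1
    by_cases hv : r v ≤ t0
    · obtain ⟨t, ht⟩ : ∃ t, r v = t + 1 := ⟨r v - 1, by omega⟩
      refine le_trans (pop_spec s (P v) (wit s F P c t) (hP v h1)) (card_le_card ?_)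
      intro w hw
      rw [mem_filter] at hw
      refine mem_filter.2 ⟨hw.1, ?_⟩
      have h2 : r w = t := by
        have := hP1 v h1 hv w hw.1
        omega
      show L (r w + 1) (wit s F P c (r w) w) = L (r v) (wit s F P c (r v) v)
      rw [h2, ht, hw.2]
      rfl
    · have h2 : N c v = P v := by
        apply filter_true_of_mem
        intro w hw
        have h3 := hr v
        have h4 := hP2 v (by omega) w hw
        show L _ _ = L _ _
        rw [L_eq_univ (by omega), L_eq_univ (by omega)]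
      rw [h2]
      refine le_trans ?_ (hP v h1)
      nlinarith
  let Good : ℕ → (V → ZMod (2 * m + 1)) → Prop := fun j c =>
    (∀ w, h w = j → c w ∈ Lst c w) ∧
      (∀ v, 1 ≤ r v → l v = j → ∀ z ∈ Tgt c v, k ≤ ((N c v).filter (fun w => c w = z)).card)
  have hdep : ∀ (j : ℕ) (c c' : V → ZMod (2 * m + 1)), (∀ w, j ≤ h w → c w = c' w) →
      Good j c → Good j c' := by
    intro j c c' hc hG
    refine ⟨fun w hw => ?_, fun v h1 hv z hz => ?_⟩
    · rw [← hLst c c' w (fun u hu => hc u (by omega)), ← hc w hw.ge]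
      exact hG.1 w hw
    · rw [← hTgt c c' v h1 (fun u hu => hc u (by omega))] at hz
      rw [← hN c c' v h1 (fun u hu => hc u (by omega))]
      refine le_trans (hG.2 v h1 hv z hz) (le_of_eq ?_)
      congr 1
      apply filter_congr
      intro w hw
      rw [hc w (by have := (hPl v h1 w (mem_filter.1 hw).1).1; omega)]
  have hstep : ∀ (j : ℕ) (c : V → ZMod (2 * m + 1)), ∃ c' : V → ZMod (2 * m + 1),
      (∀ w, j < h w → c' w = c w) ∧ Good j c' := by
    intro j c
    obtain ⟨f, hf⟩ := hpoly (N c) (univ.filter (fun v => 1 ≤ r v ∧ l v = j))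
      (fun v hv => hNcard c v (mem_filter.1 hv).2.1)
      (fun w => le_trans (card_le_card (by
        intro v hv
        rw [mem_filter, mem_filter] at hv
        exact mem_filter.2 ⟨mem_univ _, hv.1.2.1, (mem_filter.1 hv.2).1⟩)) (hdeg w))
    have hne : ∀ w, ∃ z, z ∈ Lst c w := fun w => L_nonempty _ _
    choose z0 hz0 using hne
    let c' : V → ZMod (2 * m + 1) := fun w =>
      if h w = j then (if (f w).2 ∈ Lst c w then (f w).2 else z0 w) else c w
    have hc' : ∀ w, j < h w → c' w = c w := fun w hw => if_neg (by omega)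
    refine ⟨c', hc', fun w hw => ?_, fun v h1 hv z hz => ?_⟩
    · rw [hLst c' c w (fun u hu => hc' u (by omega))]
      show (if h w = j then (if (f w).2 ∈ Lst c w then (f w).2 else z0 w) else c w) ∈ _
      rw [if_pos hw]
      split_ifs with h2
      · exact h2
      · exact hz0 w
    · rw [hTgt c' c v h1 (fun u hu => hc' u (by omega))] at hz
      rw [hN c' c v h1 (fun u hu => hc' u (by omega))]
      have h2 := fun i : Fin (k + 1) => hf v (mem_filter.2 ⟨mem_univ _, h1, hv⟩) (i, z)
      choose W hW1 hW2 using h2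
      have h3 : (univ : Finset (Fin (k + 1))).card ≤
          ((N c v).filter (fun w => c' w = z)).card := by
        apply card_le_card_of_injOn W
        · intro i _
          refine mem_coe.2 (mem_filter.2 ⟨hW1 i, ?_⟩)
          have h4 := mem_filter.1 (hW1 i)
          have h5 : h (W i) = j := by
            have := (hPl v h1 _ h4.1).1
            omega
          show (if h (W i) = j then (if (f (W i)).2 ∈ Lst c (W i) then (f (W i)).2 else z0 (W i))
            else c (W i)) = z
          rw [if_pos h5, hW2 i, h4.2, if_pos hz]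
        · intro i _ i' _ hii
          have h4 := hW2 i
          rw [hii, hW2 i'] at h4
          exact (Prod.ext_iff.1 h4).1.symm
      rw [card_univ, Fintype.card_fin] at h3
      omega
  obtain ⟨c, hc⟩ := seq_choice h Good hdep hstep
  refine ⟨c, fun v => ?_⟩
  have h1 : c v ∈ L (r v + 1) (wit s F P c (r v) v) := (hc (h v)).1 v rfl
  obtain ⟨z, hz1, hz2⟩ := L_step h1
  by_cases h0 : r v = 0
  · rw [h0] at hz1
    have h2 := L_zero hz1
    refine le_trans hks (le_trans (pop_spec s (F v) c (hF0 v h0)) (card_le_card ?_))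
    intro w hw
    rw [mem_filter] at hw
    refine mem_filter.2 ⟨mem_union_left _ hw.1, ?_⟩
    have h3 : c w = z := by rw [hw.2, h2]; rfl
    rw [h3]
    exact hz2
  · refine le_trans ((hc (l v)).2 v (by omega) rfl z hz1) (card_le_card ?_)
    intro w hw
    rw [mem_filter] at hw
    refine mem_filter.2 ⟨mem_union_right _ (mem_filter.1 hw.1).1, ?_⟩
    rw [hw.2]
    exact hz2

theorem hom_cycle (m k : ℕ) (hm : 1 ≤ m) : ∃ d : ℕ, ∀ (V : Type) [Fintype V] [DecidableEq V]
    (O : V → Finset V), (∀ v, (O v).card = d) → ∃ c : V → ZMod (2 * m + 1), ∀ v,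
      k ≤ ((O v).filter (fun w => c w = c v + 1 ∨ c w = c v - 1)).card := by
  classical
  obtain ⟨t0, ht0⟩ : ∃ t0, t0 + 1 = 2 * m := ⟨2 * m - 1, by omega⟩
  set T := 2 * t0 with hT
  obtain ⟨s, hs, hpoly⟩ := polychrom (Fin (k + 1) × ZMod (2 * m + 1))
    (2 * ((t0 + 2) * ((T + 3) * ((2 * m + 1) * (k + 1))))) (T + 2)
  set s' := (k + 1) * s with hs'
  set a := (T + 3) * ((2 * m + 1) * s') with ha
  refine ⟨(t0 + 2) * a, ?_⟩
  intro V _ _ O hO
  have hs'pos : 0 < s' := by positivity
  have hd : 0 < (t0 + 2) * a := by positivity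
  obtain ⟨h, hh⟩ := exists_height O ((t0 + 2) * a) hd (fun v => (hO v).le)
  set M := 2 * ((t0 + 2) * a) with hM
  have hM2 : 2 ≤ M := by omega
  have harc : ∀ v, ∀ w ∈ O v, h v ≤ h w + 2 := by
    intro v w hw
    have h1 : M ^ h v ≤ ∑ u ∈ univ.filter (fun u => w ∈ O u), M ^ h u :=
      single_le_sum (f := fun u => M ^ h u) (fun _ _ => Nat.zero_le _)
        (mem_filter.2 ⟨mem_univ _, hw⟩)
    exact (Nat.pow_le_pow_iff_right (by omega)).1 (h1.trans (hh w))
  have hin : ∀ w, (univ.filter (fun v => w ∈ loc O h T v)).card ≤ M ^ (T + 2) := by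
    intro w
    have h1 : (univ.filter (fun v => w ∈ loc O h T v)).card * M ^ h w ≤
        ∑ v ∈ univ.filter (fun v => w ∈ loc O h T v), M ^ T * M ^ h v := by
      rw [← smul_eq_mul]
      apply card_nsmul_le_sum
      intro v hv
      have h2 := (mem_filter.1 (mem_filter.1 hv).2).2
      rw [← pow_add]
      exact Nat.pow_le_pow_right (by omega) (by omega)
    have h2 : ∑ v ∈ univ.filter (fun v => w ∈ loc O h T v), M ^ h v ≤
        ∑ u ∈ univ.filter (fun u => w ∈ O u), M ^ h u := by
      apply sum_le_sum_of_subset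
      intro v hv
      exact mem_filter.2 ⟨mem_univ _, (mem_filter.1 (mem_filter.1 hv).2).1⟩
    rw [← mul_sum] at h1
    have h3 : M ^ T * ∑ v ∈ univ.filter (fun v => w ∈ loc O h T v), M ^ h v ≤
        M ^ (T + 2) * M ^ h w := by
      calc _ ≤ M ^ T * M ^ (h w + 2) := Nat.mul_le_mul_left _ (h2.trans (hh w))
        _ = _ := by ring
    exact Nat.le_of_mul_le_mul_right (h1.trans h3) (by positivity)
  obtain ⟨r, A, hrA⟩ := exists_rank O h T a t0 (fun v => (hO v).ge)
  have hlev : ∀ v, ∃ j, 1 ≤ r v → (2 * m + 1) * s' ≤ ((A v).filter (fun w => h w = j)).card := by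
    intro v
    by_cases h1 : 1 ≤ r v
    · obtain ⟨h2, h3⟩ := (hrA v).2.2.1 h1
      obtain ⟨j, -, hj⟩ := exists_popular (A v) h (Icc (h v - 2) (h v + T))
        (by
          intro w hw
          have h4 := mem_filter.1 (h2 hw)
          have h5 := harc v w h4.1
          have h6 := h4.2
          rw [mem_Icc]
          omega)
        ⟨h v, by rw [mem_Icc]; omega⟩ ((2 * m + 1) * s')
        (by
          refine le_trans ?_ h3
          rw [ha, Nat.card_Icc]
          apply Nat.mul_le_mul_right
          omega)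
      exact ⟨j, fun _ => hj⟩
    · exact ⟨0, fun h2 => absurd h2 h1⟩
  choose l hl using hlev
  have hMeq : M = 2 * ((t0 + 2) * ((T + 3) * ((2 * m + 1) * (k + 1)))) * s := by
    rw [hM, ha, hs']
    ring
  obtain ⟨c, hc⟩ := core (V := V) m t0 k s' T (M ^ (T + 2)) ht0 le_rfl
    (by rw [hs']; nlinarith) h r l (far O h T)
    (fun v => if 1 ≤ r v then (A v).filter (fun w => h w = l v) else ∅)
    (fun v => (hrA v).1)
    (fun v w hw => (mem_filter.1 hw).2)
    (fun v h0 => le_trans (by rw [ha]; nlinarith [Nat.zero_le ((2 * m + 1) * s')])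
      ((hrA v).2.1 h0))
    (fun v h1 => by simp only [h1, if_true]; exact hl v h1)
    (fun v h1 w hw => by
      simp only [h1, if_true] at hw
      have h2 := mem_filter.1 hw
      exact ⟨h2.2, harc v w (mem_filter.1 (((hrA v).2.2.1 h1).1 h2.1)).1⟩)
    (fun v h1 h2 w hw => by
      simp only [h1, if_true] at hw
      exact (hrA v).2.2.2.1 h1 h2 w (mem_filter.1 hw).1)
    (fun v h1 w hw => by
      have h2 : 1 ≤ r v := by omega
      simp only [h2, if_true] at hw
      exact (hrA v).2.2.2.2 h1 w (mem_filter.1 hw).1)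
    (fun w => le_trans (card_le_card (by
      intro v hv
      obtain ⟨-, h1, h2⟩ := mem_filter.1 hv
      simp only [h1, if_true] at h2
      exact mem_filter.2 ⟨mem_univ _, ((hrA v).2.2.1 h1).1 (mem_filter.1 h2).1⟩)) (hin w))
    (fun E J hE hdeg => hpoly V E J
      (fun i hi => le_trans (by rw [hs']; nlinarith) (hE i hi))
      (fun w => by rw [← hMeq]; exact hdeg w))
  refine ⟨c, fun v => le_trans (hc v) (card_le_card ?_)⟩
  intro w hw
  rw [mem_filter] at hw
  refine mem_filter.2 ⟨?_, hw.2⟩
  rcases mem_union.1 hw.1 with h1 | h1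
  · exact (mem_filter.1 h1).1
  · by_cases h2 : 1 ≤ r v
    · simp only [h2, if_true] at h1
      exact (mem_filter.1 (((hrA v).2.2.1 h2).1 (mem_filter.1 h1).1)).1
    · simp only [h2, if_false] at h1
      exact absurd h1 (notMem_empty _)

end Pool.Agent.H104Z.OC
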