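import Mathlib
import Pool.Agent.H104Z.OC.Main

set_option autoImplicit false

namespace Pool.Agent.H104Z.OC

open Finset

/-- there is no closed walk of odd length `n < g` in the cycle of length `g` -/
theorem no_short_odd (n g : ℕ) (hn : Odd (n + 2)) (hg : n + 2 < g) (x : Fin (n + 2) → ZMod g)
    (hx : ∀ i, x (i + 1) = x i + 1 ∨ x (i + 1) = x i - 1) : False := by
  classical
  have h1 : ∀ i, ∃ e : ℤ, (e = 1 ∨ e = -1) ∧ x (i + 1) = x i + (e : ZMod g) := by
    intro i
    rcases hx i with h | h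
    · exact ⟨1, Or.inl rfl, by simpa using h⟩
    · exact ⟨-1, Or.inr rfl, by rw [h]; push_cast; ring⟩
  choose e he1 he2 using h1
  have h2 : ∑ i, x (i + 1) = ∑ i, x i := Equiv.sum_comp (Equiv.addRight (1 : Fin (n + 2))) x
  simp only [he2] at h2
  rw [sum_add_distrib] at h2
  have h3 : ((∑ i, e i : ℤ) : ZMod g) = 0 := by
    push_cast
    exact add_eq_left.1 h2
  rw [ZMod.intCast_zmod_eq_zero_iff_dvd] at h3
  have h4 : |∑ i, e i| ≤ ((n + 2 : ℕ) : ℤ) := by
    refine le_trans (abs_sum_le_sum_abs _ _) ?_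
    have : ∀ i, |e i| = 1 := fun i => by rcases he1 i with h | h <;> simp [h]
    simp [this]
  have h5 : (2 : ℤ) ∣ ∑ i, (e i - 1) := dvd_sum fun i _ => by
    rcases he1 i with h | h <;> simp [h]
  rw [sum_sub_distrib] at h5
  simp only [sum_const, card_univ, Fintype.card_fin, nsmul_eq_mul, mul_one] at h5
  have h6 : ∑ i, e i = 0 := by
    apply Int.eq_zero_of_abs_lt_dvd h3
    have : ((n + 2 : ℕ) : ℤ) < (g : ℤ) := by exact_mod_cast hg
    omega
  obtain ⟨t, ht⟩ := hn
  rw [h6] at h5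
  omega

theorem main (n : ℕ) (hn : Odd n) (h3 : 3 ≤ n) (k : ℕ) : ∃ d : ℕ, ∀ (V : Type) [Finite V]
    (A : V → V → Prop), (∀ v, d ≤ {w | A v w}.ncard) → ∃ B : V → V → Prop,
      (∀ u v, B u v → A u v) ∧ (∀ v, k ≤ {w | B v w}.ncard) ∧
      ∀ f : Fin n → V, ¬ ∀ x y, (SimpleGraph.cycleGraph n).Adj x y → B (f x) (f y) ∨ B (f y) (f x) := by
  classical
  obtain ⟨n, rfl⟩ : ∃ n', n = n' + 2 := ⟨n - 2, by omega⟩
  obtain ⟨d, hd⟩ := hom_cycle (n + 2) k (by omega)
  refine ⟨d, fun V _ A hA => ?_⟩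
  haveI : Fintype V := Fintype.ofFinite V
  have h1 : ∀ v, ∃ O : Finset V, (∀ w ∈ O, A v w) ∧ O.card = d := by
    intro v
    have h2 := hA v
    rw [Set.ncard_eq_toFinset_card' ] at h2
    obtain ⟨O, h3, h4⟩ := exists_subset_card_eq h2
    exact ⟨O, fun w hw => by simpa using h3 hw, h4⟩
  choose O hO1 hO2 using h1
  obtain ⟨c, hc⟩ := hd V O hO2
  refine ⟨fun u v => A u v ∧ (c v = c u + 1 ∨ c v = c u - 1), fun u v h => h.1, fun v => ?_, ?_⟩
  · refine le_trans (hc v) ?_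
    rw [← Set.ncard_coe_finset]
    apply Set.ncard_le_ncard _ (Set.toFinite _)
    intro w hw
    rw [mem_coe, mem_filter] at hw
    exact ⟨hO1 v w hw.1, hw.2⟩
  · intro f hf
    refine no_short_odd n (2 * (n + 2) + 1) hn (by omega) (fun i => c (f i)) (fun i => ?_)
    rcases hf i (i + 1) (SimpleGraph.cycleGraph_adj.2 (Or.inr (by simp))) with h | h
    · exact h.2
    · rcases h.2 with h | h
      · right
        show c (f (i + 1)) = c (f i) - 1
        rw [h]; ring
      · left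
        show c (f (i + 1)) = c (f i) + 1
        rw [h]; ring

end Pool.Agent.H104Z.OC
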